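import Mathlib

set_option autoImplicit false

open MeasureTheory Filter Topology

namespace Pool.Agent.MP_0eb56c_an.H74

/-- A family with an upper `ℓ²` estimate lies in the range of an operator from `ℓ²`. -/
theorem exists_op {ι X : Type*} [NormedAddCommGroup X] [NormedSpace ℝ X] [CompleteSpace X]
    (v : ι → X) (C : ℝ) (hC : 0 ≤ C)
    (h : ∀ (s : Finset ι) (a : ι → ℝ), ‖∑ i ∈ s, a i • v i‖ ^ 2 ≤ C * ∑ i ∈ s, a i ^ 2) :
    ∃ T : lp (fun _ : ι => ℝ) 2 →L[ℝ] X, ∀ i, v i ∈ Set.range T := by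
  classical
  have h2 : (0 : ℝ) < (2 : ENNReal).toReal := by norm_num
  have hsq : ∀ a : lp (fun _ : ι => ℝ) 2, HasSum (fun i => (a i) ^ 2) (‖a‖ ^ 2) := by
    intro a
    have := lp.hasSum_norm h2 a
    simpa using this
  have hsum : ∀ a : lp (fun _ : ι => ℝ) 2, Summable (fun i => a i • v i) := by
    intro a
    rw [summable_iff_vanishing_norm]
    intro ε hε
    have hs := (hsq a).summable
    rw [summable_iff_vanishing_norm] at hs
    obtain ⟨s, hs⟩ := hs (ε ^ 2 / (C + 1)) (by positivity)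
    refine ⟨s, fun t ht => ?_⟩
    have h1 := hs t ht
    have h3 := h t a
    have h4 : ∑ i ∈ t, (a i) ^ 2 < ε ^ 2 / (C + 1) := lt_of_le_of_lt (le_abs_self _) h1
    have h5 : 0 ≤ ∑ i ∈ t, (a i) ^ 2 := Finset.sum_nonneg fun i _ => sq_nonneg _
    rw [lt_div_iff₀ (by positivity)] at h4
    have h6 : ‖∑ i ∈ t, a i • v i‖ ^ 2 < ε ^ 2 := by nlinarith
    exact lt_of_pow_lt_pow_left₀ 2 hε.le h6
  let L : lp (fun _ : ι => ℝ) 2 →ₗ[ℝ] X :=
    { toFun := fun a => ∑' i, a i • v i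
      map_add' := fun a b => by
        rw [← (hsum a).tsum_add (hsum b)]
        congr 1
        ext i
        simp [add_smul]
      map_smul' := fun c a => by
        rw [RingHom.id_apply, ← (hsum a).tsum_const_smul c]
        congr 1
        ext i
        simp [mul_smul] }
  have hb : ∀ a, ‖L a‖ ≤ Real.sqrt C * ‖a‖ := by
    intro a
    have ht : Tendsto (fun s : Finset ι => ‖∑ i ∈ s, a i • v i‖) atTop (𝓝 ‖L a‖) :=
      (hsum a).hasSum.norm
    refine le_of_tendsto' ht fun s => ?_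
    have h1 : ∑ i ∈ s, (a i) ^ 2 ≤ ‖a‖ ^ 2 := sum_le_hasSum s (fun i _ => sq_nonneg _) (hsq a)
    have h3 := h s a
    have h4 : ‖∑ i ∈ s, a i • v i‖ ^ 2 ≤ (Real.sqrt C * ‖a‖) ^ 2 := by
      rw [mul_pow, Real.sq_sqrt hC]
      exact h3.trans (mul_le_mul_of_nonneg_left h1 hC)
    exact le_of_pow_le_pow_left₀ (by norm_num) (by positivity) h4
  refine ⟨L.mkContinuous _ hb, fun i => ⟨lp.single 2 i (1 : ℝ), ?_⟩⟩
  change ∑' j, (lp.single 2 i (1 : ℝ) : lp (fun _ : ι => ℝ) 2) j • v j = v i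
  rw [tsum_eq_single i]
  · simp
  · intro j hj
    simp [hj]

/-- Two-point inequality for exponents that are powers of two. -/
theorem two_point (j : ℕ) : ∃ C : ℝ, 1 ≤ C ∧ ∀ g u : ℝ,
    ((g + u) ^ (2 * 2 ^ j) + (g - u) ^ (2 * 2 ^ j)) / 2 ≤ (g ^ 2 + C * u ^ 2) ^ (2 ^ j) := by
  induction j with
  | zero => exact ⟨1, le_rfl, fun g u => by simp; nlinarith⟩
  | succ j ih =>
    obtain ⟨C, hC, h⟩ := ih
    refine ⟨1 + 2 * C, by linarith, fun g u => ?_⟩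
    have e1 : (g + u) ^ (2 * 2 ^ (j + 1)) = ((g ^ 2 + u ^ 2) + 2 * g * u) ^ (2 * 2 ^ j) := by
      rw [show 2 * 2 ^ (j + 1) = 2 * (2 * 2 ^ j) by ring, pow_mul]
      congr 1
      ring
    have e2 : (g - u) ^ (2 * 2 ^ (j + 1)) = ((g ^ 2 + u ^ 2) - 2 * g * u) ^ (2 * 2 ^ j) := by
      rw [show 2 * 2 ^ (j + 1) = 2 * (2 * 2 ^ j) by ring, pow_mul]
      congr 1
      ring
    rw [e1, e2]
    refine (h _ _).trans ?_
    rw [show 2 ^ (j + 1) = 2 * 2 ^ j by ring, pow_mul]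
    apply pow_le_pow_left₀ (by positivity)
    have h1 : 0 ≤ u ^ 4 * (C + C ^ 2) := by positivity
    nlinarith

/-- Pointwise form used for the martingale step. -/
theorem pointwise (j : ℕ) : ∃ ρ : ℝ, 0 < ρ ∧ ∀ g h t : ℝ, |t| ≤ 1 →
    (g + ρ * t * h) ^ (2 * 2 ^ j) ≤ (g ^ 2 + h ^ 2) ^ (2 ^ j) +
      ((g + ρ * h) ^ (2 * 2 ^ j) - (g - ρ * h) ^ (2 * 2 ^ j)) / 2 * t := by
  obtain ⟨C, hC, H⟩ := two_point j
  refine ⟨1 / C, by positivity, fun g h t ht => ?_⟩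
  have hev : Even (2 * 2 ^ j) := even_two_mul _
  have ha : 0 ≤ (1 + t) / 2 := by have := (abs_le.1 ht).1; linarith
  have hb : 0 ≤ (1 - t) / 2 := by have := (abs_le.1 ht).2; linarith
  have hcv := (hev.convexOn_pow (𝕜 := ℝ)).2 (Set.mem_univ (g + 1 / C * h))
    (Set.mem_univ (g - 1 / C * h)) ha hb (by ring)
  simp only [smul_eq_mul] at hcv
  have e : (1 + t) / 2 * (g + 1 / C * h) + (1 - t) / 2 * (g - 1 / C * h) = g + 1 / C * t * h := by
    ring
  rw [e] at hcv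
  have h1 := H g (1 / C * h)
  have h2 : (g ^ 2 + C * (1 / C * h) ^ 2) ^ (2 ^ j) ≤ (g ^ 2 + h ^ 2) ^ (2 ^ j) := by
    apply pow_le_pow_left₀ (by positivity)
    have hC0 : 0 < C := by linarith
    have : C * (1 / C * h) ^ 2 = h ^ 2 / C := by field_simp
    rw [this]
    have : h ^ 2 / C ≤ h ^ 2 := div_le_self (sq_nonneg _) hC
    linarith
  nlinarith

end Pool.Agent.MP_0eb56c_an.H74
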